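import Mathlib
import Pool.Agent.H759R2.Kad.Props5

open scoped ComplexOrder InnerProductSpace ComplexConjugate
open Finset

noncomputable section

namespace H759R2.Kad

universe u v

namespace F10

section gen

variable {A : Type*} {B : Type*} [Ring A] [StarRing A] [Algebra ℂ A]
  [Ring B] [StarRing B] [Algebra ℂ B]

/-- Entrywise application of a *-isomorphism. -/
def mapEquiv {n : Type*} [Fintype n] (e : A ≃⋆ₐ[ℂ] B) :
    CStarMatrix n n A ≃⋆ₐ[ℂ] CStarMatrix n n B where
  toFun x := x.map e
  invFun y := y.map e.symm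
  left_inv x := by
    ext i j
    simp
  right_inv x := by
    ext i j
    simp
  map_mul' x y := by
    ext i j
    simp [CStarMatrix.mul_apply, map_sum]
  map_add' x y := by
    ext i j
    simp
  map_smul' c x := by
    ext i j
    simp
  map_star' x := by
    ext i j
    simp [CStarMatrix.star_apply, map_star]

theorem sum_ap {n ι : Type*} (s : Finset ι) (f : ι → CStarMatrix n n A) (j j' : n) :
    (∑ i ∈ s, f i) j j' = ∑ i ∈ s, f i j j' := by
  classical
  induction s using Finset.induction_on with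
  | empty => rfl
  | insert a s ha ih =>
    rw [Finset.sum_insert ha, Finset.sum_insert ha, ← ih]
    rfl

/-- Flattening of indices. -/
def compEquiv (m n : Type*) [Fintype m] [Fintype n] :
    CStarMatrix m m (CStarMatrix n n A) ≃⋆ₐ[ℂ] CStarMatrix (m × n) (m × n) A where
  toFun x := CStarMatrix.ofMatrix (fun p q => x p.1 q.1 p.2 q.2)
  invFun y := CStarMatrix.ofMatrix (fun i i' => CStarMatrix.ofMatrix (fun j j' => y (i, j) (i', j')))
  left_inv x := rfl
  right_inv y := rfl
  map_mul' x y := by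
    refine CStarMatrix.ext fun p q => ?_
    have h1 : (x * y) p.1 q.1 p.2 q.2 = ∑ i, ∑ j, x p.1 i p.2 j * y i q.1 j q.2 := by
      rw [CStarMatrix.mul_apply, sum_ap]
      refine Finset.sum_congr rfl fun i _ => ?_
      rw [CStarMatrix.mul_apply]
    refine Eq.trans h1 ?_
    rw [CStarMatrix.mul_apply, Fintype.sum_prod_type]
    rfl
  map_add' x y := rfl
  map_smul' c x := rfl
  map_star' x := rfl

/-- One by one matrices. -/
def oneEquiv : A ≃⋆ₐ[ℂ] CStarMatrix (Fin 1) (Fin 1) A where
  toFun a := CStarMatrix.ofMatrix (fun _ _ => a)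
  invFun y := y 0 0
  left_inv x := rfl
  right_inv y := by
    refine CStarMatrix.ext fun i j => ?_
    rw [Subsingleton.elim i 0, Subsingleton.elim j 0]
    rfl
  map_mul' x y := by
    refine CStarMatrix.ext fun i j => ?_
    rw [CStarMatrix.mul_apply]
    simp
    rfl
  map_add' x y := rfl
  map_smul' c x := rfl
  map_star' x := rfl

end gen

end F10

theorem prove5_pow (h : F_two.{u}) : F_pow.{u} := by
  intro H _ _ _ M τ hM k
  induction k with
  | zero =>
    refine ⟨M, τ, hM, ⟨?_⟩⟩
    have e1 : M.toStarSubalgebra ≃⋆ₐ[ℂ] CStarMatrix (Fin 1) (Fin 1) M.toStarSubalgebra :=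
      F10.oneEquiv
    exact e1.trans (CStarMatrix.reindexₐ ℂ M.toStarSubalgebra (finCongr (pow_zero 2).symm))
  | succ k ih =>
    obtain ⟨N, τ₁, hN, ⟨φ⟩⟩ := ih
    obtain ⟨N', τ₂, hN', ⟨ψ⟩⟩ := h H N τ₁ hN
    refine ⟨N', τ₂, hN', ⟨?_⟩⟩
    have e1 := φ.trans (F10.mapEquiv ψ)
    have e2 := e1.trans (F10.compEquiv (Fin (2 ^ k)) (Fin 2))
    exact e2.trans
      (CStarMatrix.reindexₐ ℂ N'.toStarSubalgebra
        (finProdFinEquiv.trans (finCongr (pow_succ 2 k).symm)))

end H759R2.Kad
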